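import Pool.Agent.RH6.Final

/-!
# The non-uniform maximal reflective arithmetic lattices in `Isom(ℍ^6)`

There are exactly 37 of them up to conjugacy: the groups `W(U ⊥ K_i)` generated by all reflections
of the lattices `U ⊥ K_i` of signature (6,1), `K_i` (`0 ≤ i < 37`) one of the positive definite
lattices of rank 5 listed below and `U` the hyperbolic plane.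

All definitions used in the statement are in this file and in `Pool/Agent/RH6/Def.lean`.
-/

open Matrix RH6

namespace Pool.Agent.Results.MP_269b30_al.MaximalReflectiveH6

/-- `D_4 ⊥ ⟨2⟩` -/
def K0 : Matrix (Fin 5) (Fin 5) ℤ := !![2, 1, 0, 0, 0; 1, 2, 1, 1, 0; 0, 1, 2, 0, 0; 0, 1, 0, 2, 0; 0, 0, 0, 0, 2]

/-- `⟨2⟩^5` -/
def K1 : Matrix (Fin 5) (Fin 5) ℤ := !![2, 0, 0, 0, 0; 0, 2, 0, 0, 0; 0, 0, 2, 0, 0; 0, 0, 0, 2, 0; 0, 0, 0, 0, 2]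

/-- `⟨1⟩^5` -/
def K2 : Matrix (Fin 5) (Fin 5) ℤ := !![1, 0, 0, 0, 0; 0, 1, 0, 0, 0; 0, 0, 1, 0, 0; 0, 0, 0, 1, 0; 0, 0, 0, 0, 1]

/-- `A_2 ⊥ A_2(2) ⊥ ⟨2⟩` -/
def K3 : Matrix (Fin 5) (Fin 5) ℤ := !![2, 1, 0, 0, 0; 1, 2, 0, 0, 0; 0, 0, 4, 2, 0; 0, 0, 2, 4, 0; 0, 0, 0, 0, 2]

/-- `A_2(2) ⊥ ⟨2⟩^2 ⊥ ⟨6⟩` -/
def K4 : Matrix (Fin 5) (Fin 5) ℤ := !![4, 2, 0, 0, 0; 2, 4, 0, 0, 0; 0, 0, 2, 0, 0; 0, 0, 0, 2, 0; 0, 0, 0, 0, 6]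

/-- `A_2 ⊥ ⟨1⟩^2 ⊥ ⟨3⟩` -/
def K5 : Matrix (Fin 5) (Fin 5) ℤ := !![2, 1, 0, 0, 0; 1, 2, 0, 0, 0; 0, 0, 1, 0, 0; 0, 0, 0, 1, 0; 0, 0, 0, 0, 3]

/-- `A_2^2 ⊥ ⟨2⟩` -/
def K6 : Matrix (Fin 5) (Fin 5) ℤ := !![2, 1, 0, 0, 0; 1, 2, 0, 0, 0; 0, 0, 2, 1, 0; 0, 0, 1, 2, 0; 0, 0, 0, 0, 2]

/-- `A_2 ⊥ ⟨2⟩^2 ⊥ ⟨6⟩` -/
def K7 : Matrix (Fin 5) (Fin 5) ℤ := !![2, 1, 0, 0, 0; 1, 2, 0, 0, 0; 0, 0, 2, 0, 0; 0, 0, 0, 2, 0; 0, 0, 0, 0, 6]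

/-- `⟨2⟩^3 ⊥ ⟨6⟩^2` -/
def K8 : Matrix (Fin 5) (Fin 5) ℤ := !![2, 0, 0, 0, 0; 0, 2, 0, 0, 0; 0, 0, 2, 0, 0; 0, 0, 0, 6, 0; 0, 0, 0, 0, 6]

/-- `⟨1⟩^3 ⊥ ⟨3⟩^2` -/
def K9 : Matrix (Fin 5) (Fin 5) ℤ := !![1, 0, 0, 0, 0; 0, 1, 0, 0, 0; 0, 0, 1, 0, 0; 0, 0, 0, 3, 0; 0, 0, 0, 0, 3]

/-- `A_2 ⊥ A_2(2) ⊥ ⟨6⟩` -/
def K10 : Matrix (Fin 5) (Fin 5) ℤ := !![2, 1, 0, 0, 0; 1, 2, 0, 0, 0; 0, 0, 4, 2, 0; 0, 0, 2, 4, 0; 0, 0, 0, 0, 6]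

/-- `A_2(2) ⊥ ⟨2⟩ ⊥ ⟨6⟩^2` -/
def K11 : Matrix (Fin 5) (Fin 5) ℤ := !![4, 2, 0, 0, 0; 2, 4, 0, 0, 0; 0, 0, 2, 0, 0; 0, 0, 0, 6, 0; 0, 0, 0, 0, 6]

/-- `A_2 ⊥ ⟨1⟩ ⊥ ⟨3⟩^2` -/
def K12 : Matrix (Fin 5) (Fin 5) ℤ := !![2, 1, 0, 0, 0; 1, 2, 0, 0, 0; 0, 0, 1, 0, 0; 0, 0, 0, 3, 0; 0, 0, 0, 0, 3]

/-- `A_2^2 ⊥ ⟨6⟩` -/
def K13 : Matrix (Fin 5) (Fin 5) ℤ := !![2, 1, 0, 0, 0; 1, 2, 0, 0, 0; 0, 0, 2, 1, 0; 0, 0, 1, 2, 0; 0, 0, 0, 0, 6]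

/-- `A_2 ⊥ ⟨2⟩ ⊥ ⟨6⟩^2` -/
def K14 : Matrix (Fin 5) (Fin 5) ℤ := !![2, 1, 0, 0, 0; 1, 2, 0, 0, 0; 0, 0, 2, 0, 0; 0, 0, 0, 6, 0; 0, 0, 0, 0, 6]

/-- `⟨2⟩^2 ⊥ ⟨6⟩^3` -/
def K15 : Matrix (Fin 5) (Fin 5) ℤ := !![2, 0, 0, 0, 0; 0, 2, 0, 0, 0; 0, 0, 6, 0, 0; 0, 0, 0, 6, 0; 0, 0, 0, 0, 6]

/-- `⟨1⟩^2 ⊥ ⟨3⟩^3` -/
def K16 : Matrix (Fin 5) (Fin 5) ℤ := !![1, 0, 0, 0, 0; 0, 1, 0, 0, 0; 0, 0, 3, 0, 0; 0, 0, 0, 3, 0; 0, 0, 0, 0, 3]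

/-- `A_2 ⊥ ⟨2⟩^3` -/
def K17 : Matrix (Fin 5) (Fin 5) ℤ := !![2, 1, 0, 0, 0; 1, 2, 0, 0, 0; 0, 0, 2, 0, 0; 0, 0, 0, 2, 0; 0, 0, 0, 0, 2]

/-- `⟨2⟩^4 ⊥ ⟨6⟩` -/
def K18 : Matrix (Fin 5) (Fin 5) ℤ := !![2, 0, 0, 0, 0; 0, 2, 0, 0, 0; 0, 0, 2, 0, 0; 0, 0, 0, 2, 0; 0, 0, 0, 0, 6]

/-- `⟨1⟩^4 ⊥ ⟨3⟩` -/
def K19 : Matrix (Fin 5) (Fin 5) ℤ := !![1, 0, 0, 0, 0; 0, 1, 0, 0, 0; 0, 0, 1, 0, 0; 0, 0, 0, 1, 0; 0, 0, 0, 0, 3]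

/-- `A_5` -/
def K20 : Matrix (Fin 5) (Fin 5) ℤ := !![2, 1, 0, 0, 0; 1, 2, 1, 0, 0; 0, 1, 2, 1, 0; 0, 0, 1, 2, 1; 0, 0, 0, 1, 2]

/-- `D ⊥ ⟨2⟩`, `D` the even lattice of rank 4 and determinant 12 given by the first block -/
def K21 : Matrix (Fin 5) (Fin 5) ℤ := !![2, 1, 0, 0, 0; 1, 2, 1, 1, 0; 0, 1, 2, 0, 0; 0, 1, 0, 4, 0; 0, 0, 0, 0, 2]

/-- `A_2(2) ⊥ ⟨2⟩^3` -/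
def K22 : Matrix (Fin 5) (Fin 5) ℤ := !![4, 2, 0, 0, 0; 2, 4, 0, 0, 0; 0, 0, 2, 0, 0; 0, 0, 0, 2, 0; 0, 0, 0, 0, 2]

/-- `A_2 ⊥ ⟨1⟩^3` -/
def K23 : Matrix (Fin 5) (Fin 5) ℤ := !![2, 1, 0, 0, 0; 1, 2, 0, 0, 0; 0, 0, 1, 0, 0; 0, 0, 0, 1, 0; 0, 0, 0, 0, 1]

/-- `⟨1⟩^3 ⊥ ⟨3⟩ ⊥ ⟨5⟩` -/
def K24 : Matrix (Fin 5) (Fin 5) ℤ := !![1, 0, 0, 0, 0; 0, 1, 0, 0, 0; 0, 0, 1, 0, 0; 0, 0, 0, 3, 0; 0, 0, 0, 0, 5]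

/-- `⟨1⟩^3 ⊥ ⟨5⟩^2` -/
def K25 : Matrix (Fin 5) (Fin 5) ℤ := !![1, 0, 0, 0, 0; 0, 1, 0, 0, 0; 0, 0, 1, 0, 0; 0, 0, 0, 5, 0; 0, 0, 0, 0, 5]

/-- `A_4 ⊥ ⟨10⟩` -/
def K26 : Matrix (Fin 5) (Fin 5) ℤ := !![2, 1, 0, 0, 0; 1, 2, 1, 0, 0; 0, 1, 2, 1, 0; 0, 0, 1, 2, 0; 0, 0, 0, 0, 10]

/-- `[2,1;1,3] ⊥ ⟨1⟩^2 ⊥ ⟨5⟩` -/
def K27 : Matrix (Fin 5) (Fin 5) ℤ := !![2, 1, 0, 0, 0; 1, 3, 0, 0, 0; 0, 0, 1, 0, 0; 0, 0, 0, 1, 0; 0, 0, 0, 0, 5]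

/-- `⟨1⟩^2 ⊥ ⟨5⟩^3` -/
def K28 : Matrix (Fin 5) (Fin 5) ℤ := !![1, 0, 0, 0, 0; 0, 1, 0, 0, 0; 0, 0, 5, 0, 0; 0, 0, 0, 5, 0; 0, 0, 0, 0, 5]

/-- `A_4^*(5) ⊥ ⟨2⟩` -/
def K29 : Matrix (Fin 5) (Fin 5) ℤ := !![4, 1, 1, -1, 0; 1, 4, -1, 1, 0; 1, -1, 4, 1, 0; -1, 1, 1, 4, 0; 0, 0, 0, 0, 2]

/-- `D_4 ⊥ ⟨10⟩` -/
def K30 : Matrix (Fin 5) (Fin 5) ℤ := !![2, 1, 0, 0, 0; 1, 2, 1, 1, 0; 0, 1, 2, 0, 0; 0, 1, 0, 2, 0; 0, 0, 0, 0, 10]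

/-- `⟨2⟩^4 ⊥ ⟨10⟩` -/
def K31 : Matrix (Fin 5) (Fin 5) ℤ := !![2, 0, 0, 0, 0; 0, 2, 0, 0, 0; 0, 0, 2, 0, 0; 0, 0, 0, 2, 0; 0, 0, 0, 0, 10]

/-- `⟨1⟩^4 ⊥ ⟨5⟩` -/
def K32 : Matrix (Fin 5) (Fin 5) ℤ := !![1, 0, 0, 0, 0; 0, 1, 0, 0, 0; 0, 0, 1, 0, 0; 0, 0, 0, 1, 0; 0, 0, 0, 0, 5]

/-- `A_4 ⊥ ⟨2⟩` -/
def K33 : Matrix (Fin 5) (Fin 5) ℤ := !![2, 1, 0, 0, 0; 1, 2, 1, 0, 0; 0, 1, 2, 1, 0; 0, 0, 1, 2, 0; 0, 0, 0, 0, 2]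

/-- `[2,1;1,3] ⊥ ⟨1⟩^3` -/
def K34 : Matrix (Fin 5) (Fin 5) ℤ := !![2, 1, 0, 0, 0; 1, 3, 0, 0, 0; 0, 0, 1, 0, 0; 0, 0, 0, 1, 0; 0, 0, 0, 0, 1]

/-- `[2,1;1,4] ⊥ ⟨2⟩^3` -/
def K35 : Matrix (Fin 5) (Fin 5) ℤ := !![2, 1, 0, 0, 0; 1, 4, 0, 0, 0; 0, 0, 2, 0, 0; 0, 0, 0, 2, 0; 0, 0, 0, 0, 2]

/-- `⟨1⟩^4 ⊥ ⟨7⟩` -/
def K36 : Matrix (Fin 5) (Fin 5) ℤ := !![1, 0, 0, 0, 0; 0, 1, 0, 0, 0; 0, 0, 1, 0, 0; 0, 0, 0, 1, 0; 0, 0, 0, 0, 7]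

/-- the 37 positive definite lattices `K_i` of rank 5 (Gram matrices) -/
def K : Fin 37 → Matrix (Fin 5) (Fin 5) ℤ := ![K0, K1, K2, K3, K4, K5, K6, K7, K8, K9, K10, K11, K12, K13, K14, K15, K16, K17, K18, K19, K20, K21, K22, K23, K24, K25, K26, K27, K28, K29, K30, K31, K32, K33, K34, K35, K36]

/-- the Gram matrix of `U ⊥ K`: `(x,x) = 2 x_0 x_1 + ∑ K_ij x_{i+2} x_{j+2}` -/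
def hyp (K : Matrix (Fin 5) (Fin 5) ℤ) : Matrix (Fin 7) (Fin 7) ℤ :=
  !![0, 1, 0, 0, 0, 0, 0;
    1, 0, 0, 0, 0, 0, 0;
    0, 0, K 0 0, K 0 1, K 0 2, K 0 3, K 0 4;
    0, 0, K 1 0, K 1 1, K 1 2, K 1 3, K 1 4;
    0, 0, K 2 0, K 2 1, K 2 2, K 2 3, K 2 4;
    0, 0, K 3 0, K 3 1, K 3 2, K 3 3, K 3 4;
    0, 0, K 4 0, K 4 1, K 4 2, K 4 3, K 4 4]

/-- `P` embeds `U ⊥ K_i` as the lattice `P ℤ^7` in the real quadratic space `J0` of signature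
(6,1); then `latGroup P` is the group of isometries of `ℍ^6` preserving the lattice and `WP P` the
subgroup generated by its reflections. -/
def Embeds (P : GL (Fin 7) ℝ) (i : Fin 37) : Prop :=
  P.1ᵀ * J0 * P.1 = (hyp (K i)).map (fun n : ℤ => (n : ℝ))

theorem hyp_eqB : ((List.finRange 37).all fun i => (List.finRange 7).all fun a =>
    (List.finRange 7).all fun b =>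
      decide (hyp (K i) a b = ofL (hypL 1 (Ks.getD (i : ℕ) [])) a b)) = true := by
  decide +kernel

theorem hyp_eq (i : Fin 37) (a b : Fin 7) :
    hyp (K i) a b = ofL (hypL 1 (Ks.getD (i : ℕ) [])) a b :=
  of_decide_eq_true (List.all_eq_true.1 (List.all_eq_true.1 (List.all_eq_true.1 hyp_eqB i
    (List.mem_finRange i)) a (List.mem_finRange a)) b (List.mem_finRange b))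

theorem embeds_iff (P : GL (Fin 7) ℝ) (i : Fin 37) :
    Embeds P i ↔ P.1ᵀ * J0 * P.1 = mR (ofL (hypL 1 (Ks.getD (i : ℕ) []))) := by
  have h : hyp (K i) = ofL (hypL 1 (Ks.getD (i : ℕ) [])) := by
    ext a b
    exact hyp_eq i a b
  unfold Embeds mR
  rw [h]

/-- Classification.  (1) every `U ⊥ K_i` embeds; (2) all the groups `W(U ⊥ K_i)` are non-uniform
maximal reflective arithmetic lattices; (3) every non-uniform maximal reflective arithmetic lattice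
is one of them; (4) they are conjugate in `Isom(ℍ^6)` only if they have the same index. -/
theorem result :
    (∀ i, ∃ P, Embeds P i) ∧
    (∀ i P, Embeds P i → RH6.IsMax (WP P)) ∧
    (∀ Γ, RH6.IsMax Γ → ∃ i P, Embeds P i ∧ Γ = WP P) ∧
    (∀ i j P P', Embeds P i → Embeds P' j →
      ((∃ g ∈ IsomH6, WP P' = (WP P).map (MulAut.conj g).toMonoidHom) ↔ i = j)) := by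
  refine ⟨fun i => ?_, fun i P h => ?_, fun Γ h => ?_, fun i j P P' h h' => ?_⟩
  · obtain ⟨P, hP⟩ := exists_all i i.2
    exact ⟨P, (embeds_iff P i).2 hP⟩
  · exact isMax_WP (ref_get i i.2) ((embeds_iff P i).1 h)
  · obtain ⟨i, hi, P, hP, e⟩ := max_all h
    exact ⟨⟨i, hi⟩, P, (embeds_iff P ⟨i, hi⟩).2 hP, e⟩
  · rw [conj_all i.2 j.2 ((embeds_iff P i).1 h) ((embeds_iff P' j).1 h')]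
    exact Fin.ext_iff.symm

end Pool.Agent.Results.MP_269b30_al.MaximalReflectiveH6
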